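import Mathlib

set_option autoImplicit false

namespace Pool.Agent.Results.MP_0a5dd0_an.BiHolder

open Finset Filter Topology

/-- The Weierstrass-type function `W_g(x) = ∑_{k ≥ 0} b^{-αk} g(b^k x)`. -/
noncomputable def W (α : ℝ) (b : ℕ) (g : ℝ → ℝ) (x : ℝ) : ℝ :=
  ∑' k : ℕ, (b : ℝ) ^ (-α * k) * g ((b : ℝ) ^ k * x)

/-- The distance on the circle `ℝ/ℤ`: `d(x,y) = min_n |x - y - n|`. -/
noncomputable def circDist (x y : ℝ) : ℝ := ⨅ n : ℤ, |x - y - n|

/-- The Weierstrass embedding `x ↦ (W_{g₁}(x), …, W_{g_m}(x))`. -/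
noncomputable def Phi (α : ℝ) (b : ℕ) {m : ℕ} (g : Fin m → ℝ → ℝ) (x : ℝ) :
    EuclideanSpace ℝ (Fin m) :=
  WithLp.toLp 2 (fun i => W α b (g i) x)

/-! ### The distance to the nearest integer -/

/-- distance to the nearest integer -/
noncomputable def D (t : ℝ) : ℝ := |t - round t|

lemma D_nonneg (t : ℝ) : 0 ≤ D t := abs_nonneg _

lemma D_le (t : ℝ) (n : ℤ) : D t ≤ |t - n| := round_le t n

lemma circDist_eq (x y : ℝ) : circDist x y = D (x - y) := by
  apply le_antisymm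
  · exact ciInf_le ⟨0, by rintro _ ⟨n, rfl⟩; exact abs_nonneg _⟩ (round (x - y))
  · exact le_ciInf fun n => D_le _ n

lemma D_add_int (t : ℝ) (n : ℤ) : D (t + n) = D t := by
  unfold D
  rw [round_add_intCast]
  push_cast
  congr 1
  ring

lemma D_lip (s t : ℝ) : |D s - D t| ≤ |s - t| := by
  have key : ∀ s t : ℝ, D s - D t ≤ |s - t| := by
    intro s t
    have h1 := D_le s (round t)
    have h2 : |s - round t| ≤ |s - t| + |t - round t| := by
      have : s - round t = (s - t) + (t - round t) := by ring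
      rw [this]; exact abs_add_le _ _
    have h3 : D t = |t - round t| := rfl
    linarith
  rw [abs_le]
  constructor
  · have := key t s
    rw [abs_sub_comm] at this
    linarith
  · exact key s t

lemma D_eq_zero {t : ℝ} : D t = 0 ↔ ∃ n : ℤ, t = n := by
  constructor
  · intro h
    exact ⟨round t, by unfold D at h; rw [abs_eq_zero] at h; linarith⟩
  · rintro ⟨n, rfl⟩
    unfold D
    simp

lemma D_le_half (t : ℝ) : D t ≤ 1 / 2 := abs_sub_round t

lemma D_continuous : Continuous D := by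
  have : LipschitzWith 1 D := LipschitzWith.of_dist_le_mul (by
    intro s t
    rw [Real.dist_eq, Real.dist_eq]
    simpa using D_lip s t)
  exact this.continuous

/-! ### The series with a general ratio -/

/-- `∑ β^k g(b^k x)` -/
noncomputable def w (β b : ℝ) (g : ℝ → ℝ) (x : ℝ) : ℝ := ∑' k : ℕ, β ^ k * g (b ^ k * x)

lemma W_eq {α : ℝ} {b : ℕ} (hb : 2 ≤ b) (g : ℝ → ℝ) (x : ℝ) :
    W α b g x = w ((b : ℝ) ^ (-α)) b g x := by
  unfold W w
  congr 1
  funext k
  rw [Real.rpow_mul (by positivity), Real.rpow_natCast]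

section
variable {β b : ℝ}

lemma summable_w (hβ : 0 < β) (hβ1 : β < 1) {g : ℝ → ℝ} {M : ℝ} (hM : ∀ x, |g x| ≤ M) (x : ℝ) :
    Summable (fun k : ℕ => β ^ k * g (b ^ k * x)) := by
  apply Summable.of_norm_bounded (g := fun k : ℕ => β ^ k * M)
  · exact (summable_geometric_of_lt_one hβ.le hβ1).mul_right M
  · intro k
    rw [Real.norm_eq_abs, abs_mul, abs_of_pos (pow_pos hβ k)]
    exact mul_le_mul_of_nonneg_left (hM _) (pow_pos hβ k).le

lemma w_continuous (hβ : 0 < β) (hβ1 : β < 1) {g : ℝ → ℝ} {M : ℝ} (hM : ∀ x, |g x| ≤ M)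
    (hg : Continuous g) : Continuous (w β b g) := by
  apply continuous_tsum (u := fun k : ℕ => β ^ k * M)
  · intro k
    fun_prop
  · exact (summable_geometric_of_lt_one hβ.le hβ1).mul_right M
  · intro k x
    rw [Real.norm_eq_abs, abs_mul, abs_of_pos (pow_pos hβ k)]
    exact mul_le_mul_of_nonneg_left (hM _) (pow_pos hβ k).le

/-- sum of a geometric progression of ratio `γ > 1` -/
lemma geom_le {γ : ℝ} (hγ : 1 < γ) (K : ℕ) :
    ∑ k ∈ range (K + 1), γ ^ k ≤ γ ^ (K + 1) / (γ - 1) := by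
  rw [geom_sum_eq hγ.ne']
  apply div_le_div_of_nonneg_right _ (by linarith)
  linarith

lemma upper (hβ : 0 < β) (hβ1 : β < 1) (hb : 1 < b) (hbβ : 1 < b * β) {g : ℝ → ℝ} {M L : ℝ}
    (hM : ∀ x, |g x| ≤ M) (hL : ∀ x y, |g x - g y| ≤ L * |x - y|) (hL0 : 0 ≤ L) (x δ : ℝ)
    (hδ : 0 < δ) (K : ℕ) (hK : b ^ K * δ ≤ 1) :
    |w β b g (x + δ) - w β b g x| ≤ β ^ (K + 1) * (L * b / (b * β - 1) + 2 * M / (1 - β)) := by
  have hM0 : 0 ≤ M := (abs_nonneg _).trans (hM 0)
  have hb0 : 0 < b := by linarith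
  have s1 := summable_w (b := b) hβ hβ1 hM (x + δ)
  have s2 := summable_w (b := b) hβ hβ1 hM x
  have e1 : w β b g (x + δ) - w β b g x =
      ∑' k : ℕ, (β ^ k * g (b ^ k * (x + δ)) - β ^ k * g (b ^ k * x)) :=
    (s1.tsum_sub s2).symm
  have hs := s1.sub s2
  have t1 : ∀ k : ℕ, |β ^ k * g (b ^ k * (x + δ)) - β ^ k * g (b ^ k * x)| ≤
      (b * β) ^ k * (L * δ) := by
    intro k
    rw [← mul_sub, abs_mul, abs_of_pos (pow_pos hβ k)]
    have h1 := hL (b ^ k * (x + δ)) (b ^ k * x)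
    have h2 : b ^ k * (x + δ) - b ^ k * x = b ^ k * δ := by ring
    rw [h2, abs_of_pos (mul_pos (pow_pos hb0 k) hδ)] at h1
    calc β ^ k * |g (b ^ k * (x + δ)) - g (b ^ k * x)| ≤ β ^ k * (L * (b ^ k * δ)) :=
          mul_le_mul_of_nonneg_left h1 (pow_pos hβ k).le
      _ = (b * β) ^ k * (L * δ) := by rw [mul_pow]; ring
  have t2 : ∀ k : ℕ, |β ^ k * g (b ^ k * (x + δ)) - β ^ k * g (b ^ k * x)| ≤ β ^ k * (2 * M) := by
    intro k
    rw [← mul_sub, abs_mul, abs_of_pos (pow_pos hβ k)]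
    apply mul_le_mul_of_nonneg_left _ (pow_pos hβ k).le
    have h1 := hM (b ^ k * (x + δ))
    have h2 := hM (b ^ k * x)
    have := abs_sub (g (b ^ k * (x + δ))) (g (b ^ k * x))
    linarith
  rw [e1, ← hs.sum_add_tsum_nat_add (K + 1)]
  refine (abs_add_le _ _).trans ?_
  have p1 : |∑ k ∈ range (K + 1), (β ^ k * g (b ^ k * (x + δ)) - β ^ k * g (b ^ k * x))| ≤
      β ^ (K + 1) * (L * b / (b * β - 1)) := by
    refine (Finset.abs_sum_le_sum_abs _ _).trans ?_
    refine (Finset.sum_le_sum fun k _ => t1 k).trans ?_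
    rw [← Finset.sum_mul]
    refine (mul_le_mul_of_nonneg_right (geom_le hbβ K) (by positivity)).trans ?_
    have h1 : (b * β) ^ (K + 1) * δ ≤ b * β ^ (K + 1) := by
      have : (b * β) ^ (K + 1) * δ = (b ^ K * δ) * (b * β ^ (K + 1)) := by
        rw [mul_pow]; ring
      rw [this]
      have h2 : 0 ≤ b * β ^ (K + 1) := by positivity
      nlinarith
    have h3 : 0 < b * β - 1 := by linarith
    rw [div_mul_eq_mul_div, mul_div_assoc', div_le_div_iff_of_pos_right h3]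
    nlinarith
  have p2 : |∑' k : ℕ, (β ^ (k + (K + 1)) * g (b ^ (k + (K + 1)) * (x + δ)) -
      β ^ (k + (K + 1)) * g (b ^ (k + (K + 1)) * x))| ≤ β ^ (K + 1) * (2 * M / (1 - β)) := by
    rw [← Real.norm_eq_abs]
    apply tsum_of_norm_bounded (g := fun k : ℕ => β ^ k * (β ^ (K + 1) * (2 * M)))
    · have := (hasSum_geometric_of_lt_one hβ.le hβ1).mul_right (β ^ (K + 1) * (2 * M))
      have hv : (1 - β)⁻¹ * (β ^ (K + 1) * (2 * M)) = β ^ (K + 1) * (2 * M / (1 - β)) := by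
        rw [div_eq_mul_inv]; ring
      rwa [hv] at this
    · intro k
      rw [Real.norm_eq_abs]
      refine (t2 (k + (K + 1))).trans (le_of_eq ?_)
      rw [pow_add]; ring
  calc _ ≤ β ^ (K + 1) * (L * b / (b * β - 1)) + β ^ (K + 1) * (2 * M / (1 - β)) :=
        add_le_add p1 p2
    _ = _ := by ring

/-! ### The sawtooth functions -/

/-- `g_{N,c}(θ) = min({θ - c}, 1/N) - {θ - c}/N` -/
noncomputable def saw (N : ℕ) (c θ : ℝ) : ℝ :=
  min (Int.fract (θ - c)) (1 / N) - Int.fract (θ - c) / N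

/-- the increasing part of the sawtooth -/
noncomputable def psi (N : ℕ) (θ : ℝ) : ℝ := (⌊θ⌋ : ℝ) / N + min (Int.fract θ) (1 / N)

lemma saw_eq (N : ℕ) (c θ : ℝ) : saw N c θ = psi N (θ - c) - (θ - c) / N := by
  unfold saw psi
  have := Int.floor_add_fract (θ - c)
  have h2 : (θ - c) / N = (⌊θ - c⌋ : ℝ) / N + Int.fract (θ - c) / N := by
    rw [← add_div, this]
  rw [h2]; ring

lemma psi_mono {N : ℕ} (hN : 1 ≤ N) {u v : ℝ} (h : u ≤ v) : psi N u ≤ psi N v := by
  unfold psi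
  have hN0 : (0 : ℝ) < N := by exact_mod_cast hN
  have hfl : ⌊u⌋ ≤ ⌊v⌋ := Int.floor_le_floor h
  rcases hfl.eq_or_lt with he | hlt
  · have hf : Int.fract u ≤ Int.fract v := by
      unfold Int.fract; rw [he]; linarith
    rw [he]
    exact add_le_add le_rfl (min_le_min hf le_rfl)
  · have h1 : ((⌊u⌋ : ℤ) : ℝ) + 1 ≤ (⌊v⌋ : ℝ) := by exact_mod_cast hlt
    have h2 : (⌊u⌋ : ℝ) / N + 1 / N ≤ (⌊v⌋ : ℝ) / N := by
      rw [← add_div]; exact div_le_div_of_nonneg_right h1 hN0.le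
    have h3 : min (Int.fract u) (1 / (N : ℝ)) ≤ 1 / N := min_le_right _ _
    have h4 : 0 ≤ min (Int.fract v) (1 / (N : ℝ)) := le_min (Int.fract_nonneg _) (by positivity)
    linarith

lemma psi_lip {N : ℕ} (hN : 1 ≤ N) {u v : ℝ} (h : u ≤ v) : psi N v - psi N u ≤ v - u := by
  unfold psi
  have hN0 : (0 : ℝ) < N := by exact_mod_cast hN
  have hN1 : (1 : ℝ) / N ≤ 1 := by
    rw [div_le_one hN0]; exact_mod_cast hN
  have hu := Int.floor_add_fract u
  have hv := Int.floor_add_fract v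
  have hfl : ⌊u⌋ ≤ ⌊v⌋ := Int.floor_le_floor h
  rcases hfl.eq_or_lt with he | hlt
  · have hf : Int.fract u ≤ Int.fract v := by
      unfold Int.fract; rw [he]; linarith
    rw [he]
    rw [he] at hu
    have h1 : min (Int.fract v) (1 / (N : ℝ)) - min (Int.fract u) (1 / N) ≤
        Int.fract v - Int.fract u := by
      rcases le_total (Int.fract u) (1 / (N : ℝ)) with h2 | h2
      · rw [min_eq_left h2]; linarith [min_le_left (Int.fract v) (1 / (N : ℝ))]
      · rw [min_eq_right h2]; linarith [min_le_right (Int.fract v) (1 / (N : ℝ))]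
    linarith
  · have h1 : ((⌊u⌋ : ℤ) : ℝ) + 1 ≤ (⌊v⌋ : ℝ) := by exact_mod_cast hlt
    have h2 : min (Int.fract v) (1 / (N : ℝ)) ≤ Int.fract v := min_le_left _ _
    have h3 : Int.fract u - min (Int.fract u) (1 / (N : ℝ)) ≤ 1 - 1 / N := by
      rcases le_total (Int.fract u) (1 / (N : ℝ)) with h4 | h4
      · rw [min_eq_left h4]; linarith
      · rw [min_eq_right h4]; linarith [(Int.fract_lt_one u).le]
    have h5 : ((⌊v⌋ : ℝ) - ⌊u⌋) * (1 - 1 / N) ≥ 1 * (1 - 1 / N) :=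
      mul_le_mul_of_nonneg_right (by linarith) (by linarith)
    have h6 : (⌊v⌋ : ℝ) / N - (⌊u⌋ : ℝ) / N = ((⌊v⌋ : ℝ) - ⌊u⌋) * (1 / N) := by ring
    nlinarith

lemma saw_ge {N : ℕ} (hN : 1 ≤ N) (c : ℝ) {u v : ℝ} (h : u ≤ v) :
    -((v - u) / N) ≤ saw N c v - saw N c u := by
  rw [saw_eq, saw_eq]
  have := psi_mono hN (show u - c ≤ v - c by linarith)
  have h2 : (v - c) / N - (u - c) / N = (v - u) / N := by ring
  linarith

lemma saw_bounds {N : ℕ} (hN : 1 ≤ N) (c θ : ℝ) : 0 ≤ saw N c θ ∧ saw N c θ ≤ 1 / N := by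
  unfold saw
  have hN0 : (0 : ℝ) < N := by exact_mod_cast hN
  have hN1 : (1 : ℝ) ≤ N := by exact_mod_cast hN
  set f := Int.fract (θ - c) with hf
  have h0 : 0 ≤ f := Int.fract_nonneg _
  have h1 : f < 1 := Int.fract_lt_one _
  constructor
  · have h2 : f / N ≤ f := div_le_self h0 hN1
    have h3 : f / N ≤ 1 / N := div_le_div_of_nonneg_right h1.le hN0.le
    linarith [le_min h2 h3]
  · have h2 : min f (1 / (N : ℝ)) ≤ 1 / N := min_le_right _ _
    have h3 : 0 ≤ f / N := by positivity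
    linarith

lemma saw_jump {N : ℕ} (hN : 1 ≤ N) (c : ℝ) {u v : ℝ} (n : ℤ) (h1 : u ≤ c + n)
    (h2 : c + n + 1 / N ≤ v) : 1 / N - (v - u) / N ≤ saw N c v - saw N c u := by
  have hN0 : (0 : ℝ) < N := by exact_mod_cast hN
  have hN1 : (1 : ℝ) ≤ N := by exact_mod_cast hN
  rw [saw_eq, saw_eq]
  have a1 : psi N (u - c) ≤ psi N (n : ℝ) := psi_mono hN (by linarith)
  have a2 : psi N ((n : ℝ) + 1 / N) ≤ psi N (v - c) := psi_mono hN (by linarith)
  have a3 : psi N (n : ℝ) = (n : ℝ) / N := by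
    unfold psi
    rw [Int.floor_intCast, Int.fract_intCast, min_eq_left (by positivity)]
    ring
  have a4 : (n : ℝ) / N + 1 / N ≤ psi N ((n : ℝ) + 1 / N) := by
    rcases hN.eq_or_lt with h | h
    · subst h
      unfold psi
      have e : (n : ℝ) + 1 / ((1 : ℕ) : ℝ) = ((n + 1 : ℤ) : ℝ) := by push_cast; ring
      rw [e, Int.floor_intCast, Int.fract_intCast]
      simp
    · have hlt : (1 : ℝ) / N < 1 := by
        rw [div_lt_one hN0]; exact_mod_cast h
      unfold psi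
      have e1 : ⌊(n : ℝ) + 1 / N⌋ = n := by
        rw [Int.floor_eq_iff]
        constructor
        · have : (0 : ℝ) ≤ 1 / N := by positivity
          linarith
        · linarith
      have e2 : Int.fract ((n : ℝ) + 1 / N) = 1 / N := by
        unfold Int.fract; rw [e1]; ring
      rw [e1, e2, min_self]
  have h3 : (v - c) / N - (u - c) / N = (v - u) / N := by ring
  linarith

lemma saw_lip {N : ℕ} (hN : 1 ≤ N) (c u v : ℝ) : |saw N c u - saw N c v| ≤ 1 * |u - v| := by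
  have hN0 : (0 : ℝ) < N := by exact_mod_cast hN
  have hN1 : (1 : ℝ) ≤ N := by exact_mod_cast hN
  have key : ∀ u v : ℝ, u ≤ v → |saw N c v - saw N c u| ≤ v - u := by
    intro u v h
    rw [abs_le]
    constructor
    · have h1 := saw_ge hN c h
      have h2 : (v - u) / N ≤ v - u := div_le_self (by linarith) hN1
      linarith
    · rw [saw_eq, saw_eq]
      have h1 := psi_lip hN (show u - c ≤ v - c by linarith)
      have h2 : (v - c) / N - (u - c) / N = (v - u) / N := by ring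
      have h3 : 0 ≤ (v - u) / N := by
        apply div_nonneg (by linarith) hN0.le
      linarith
  rw [one_mul]
  rcases le_total u v with h | h
  · rw [abs_sub_comm, abs_sub_comm u v, abs_of_nonneg (by linarith : 0 ≤ v - u)]
    exact key u v h
  · rw [abs_of_nonneg (by linarith : 0 ≤ u - v)]
    exact key v u h

lemma saw_periodic (N : ℕ) (c : ℝ) : Function.Periodic (saw N c) 1 := by
  intro θ
  unfold saw
  have : θ + 1 - c = (θ - c) + 1 := by ring
  rw [this, Int.fract_add_one]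

/-- lower bound at small scales -/
lemma small (hβ : 0 < β) (hβ1 : β < 1) (hb : 1 < b) (hbβ : 1 < b * β) {ρ : ℝ} (hρ : 0 < ρ)
    (hρ1 : ρ ≤ 1) (hbρ : β * b ^ ρ < 1) {N : ℕ} (hN : 1 ≤ N) (c x δ : ℝ) (hδ : 0 < δ) (K : ℕ)
    (n : ℤ) (h1 : b ^ K * x ≤ c + n) (h2 : c + n + 1 / N ≤ b ^ K * (x + δ)) :
    β ^ K / N * (1 - (b ^ K * δ) * (b * β / (b * β - 1)) -
      (b ^ K * δ) ^ ρ * (β * b ^ ρ / (1 - β * b ^ ρ))) ≤
      w β b (saw N c) (x + δ) - w β b (saw N c) x := by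
  have hN0 : (0 : ℝ) < N := by exact_mod_cast hN
  have hN1 : (1 : ℝ) ≤ N := by exact_mod_cast hN
  have hb0 : 0 < b := by linarith
  have hM : ∀ x, |saw N c x| ≤ 1 := by
    intro x
    have := saw_bounds hN c x
    rw [abs_of_nonneg this.1]
    exact this.2.trans (by rw [div_le_one hN0]; exact hN1)
  have s1 := summable_w (b := b) hβ hβ1 hM (x + δ)
  have s2 := summable_w (b := b) hβ hβ1 hM x
  have e1 : w β b (saw N c) (x + δ) - w β b (saw N c) x =
      ∑' k : ℕ, (β ^ k * saw N c (b ^ k * (x + δ)) - β ^ k * saw N c (b ^ k * x)) :=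
    (s1.tsum_sub s2).symm
  have hs := s1.sub s2
  have mono : ∀ k : ℕ, b ^ k * x ≤ b ^ k * (x + δ) := fun k =>
    mul_le_mul_of_nonneg_left (by linarith) (pow_pos hb0 k).le
  have t1 : ∀ k : ℕ, -((b * β) ^ k * (δ / N)) ≤
      β ^ k * saw N c (b ^ k * (x + δ)) - β ^ k * saw N c (b ^ k * x) := by
    intro k
    rw [← mul_sub]
    have h3 := saw_ge hN c (mono k)
    have h4 : b ^ k * (x + δ) - b ^ k * x = b ^ k * δ := by ring
    rw [h4] at h3
    calc -((b * β) ^ k * (δ / N)) = β ^ k * (-(b ^ k * δ / N)) := by rw [mul_pow]; ring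
      _ ≤ _ := mul_le_mul_of_nonneg_left h3 (pow_pos hβ k).le
  have t2 : ∀ k : ℕ, -(β ^ k * ((b ^ k * δ) ^ ρ / N)) ≤
      β ^ k * saw N c (b ^ k * (x + δ)) - β ^ k * saw N c (b ^ k * x) := by
    intro k
    rw [← mul_sub, ← mul_neg]
    apply mul_le_mul_of_nonneg_left _ (pow_pos hβ k).le
    have hz : 0 < b ^ k * δ := mul_pos (pow_pos hb0 k) hδ
    rcases le_total (b ^ k * δ) 1 with hc | hc
    · have h3 := saw_ge hN c (mono k)
      have h4 : b ^ k * (x + δ) - b ^ k * x = b ^ k * δ := by ring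
      rw [h4] at h3
      have h5 : b ^ k * δ ≤ (b ^ k * δ) ^ ρ := by
        conv_lhs => rw [← Real.rpow_one (b ^ k * δ)]
        exact Real.rpow_le_rpow_of_exponent_ge hz hc hρ1
      have h6 := div_le_div_of_nonneg_right h5 hN0.le
      linarith
    · have h3 := saw_bounds hN c (b ^ k * (x + δ))
      have h4 := saw_bounds hN c (b ^ k * x)
      have h5 : 1 ≤ (b ^ k * δ) ^ ρ := Real.one_le_rpow hc hρ.le
      have h6 := div_le_div_of_nonneg_right h5 hN0.le
      linarith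
  have t3 : β ^ K / N - (b * β) ^ K * (δ / N) ≤
      β ^ K * saw N c (b ^ K * (x + δ)) - β ^ K * saw N c (b ^ K * x) := by
    rw [← mul_sub]
    have h3 := saw_jump hN c n h1 h2
    have h4 : b ^ K * (x + δ) - b ^ K * x = b ^ K * δ := by ring
    rw [h4] at h3
    calc β ^ K / N - (b * β) ^ K * (δ / N) = β ^ K * (1 / N - b ^ K * δ / N) := by
          rw [mul_pow]; ring
      _ ≤ _ := mul_le_mul_of_nonneg_left h3 (pow_pos hβ K).le
  rw [e1, ← hs.sum_add_tsum_nat_add (K + 1)]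
  have p1 : β ^ K / N - β ^ K / N * ((b ^ K * δ) * (b * β / (b * β - 1))) ≤
      ∑ k ∈ range (K + 1), (β ^ k * saw N c (b ^ k * (x + δ)) - β ^ k * saw N c (b ^ k * x)) := by
    have h3 : β ^ K / N - ∑ k ∈ range (K + 1), (b * β) ^ k * (δ / N) ≤
        ∑ k ∈ range (K + 1),
          (β ^ k * saw N c (b ^ k * (x + δ)) - β ^ k * saw N c (b ^ k * x)) := by
      rw [Finset.sum_range_succ, Finset.sum_range_succ]
      have h4 : ∑ k ∈ range K, -((b * β) ^ k * (δ / N)) ≤ ∑ k ∈ range K,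
          (β ^ k * saw N c (b ^ k * (x + δ)) - β ^ k * saw N c (b ^ k * x)) :=
        Finset.sum_le_sum fun k _ => t1 k
      rw [Finset.sum_neg_distrib] at h4
      linarith
    refine le_trans ?_ h3
    rw [← Finset.sum_mul]
    have h4 := mul_le_mul_of_nonneg_right (geom_le hbβ K) (show 0 ≤ δ / N by positivity)
    have h5 : (b * β) ^ (K + 1) / (b * β - 1) * (δ / N) =
        β ^ K / N * ((b ^ K * δ) * (b * β / (b * β - 1))) := by
      rw [mul_pow]; ring
    rw [h5] at h4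
    linarith
  have p2 : -(β ^ K / N * ((b ^ K * δ) ^ ρ * (β * b ^ ρ / (1 - β * b ^ ρ)))) ≤
      ∑' k : ℕ, (β ^ (k + (K + 1)) * saw N c (b ^ (k + (K + 1)) * (x + δ)) -
      β ^ (k + (K + 1)) * saw N c (b ^ (k + (K + 1)) * x)) := by
    have hr0 : 0 ≤ β * b ^ ρ := by positivity
    have hgeo := (hasSum_geometric_of_lt_one hr0 hbρ).mul_right
      (-(β ^ K / N * ((b ^ K * δ) ^ ρ * (β * b ^ ρ))))
    have hval : (1 - β * b ^ ρ)⁻¹ * (-(β ^ K / N * ((b ^ K * δ) ^ ρ * (β * b ^ ρ)))) =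
        -(β ^ K / N * ((b ^ K * δ) ^ ρ * (β * b ^ ρ / (1 - β * b ^ ρ)))) := by
      rw [div_eq_mul_inv (β * b ^ ρ)]; ring
    rw [hval] at hgeo
    rw [← hgeo.tsum_eq]
    refine Summable.tsum_le_tsum ?_ hgeo.summable ((summable_nat_add_iff (K + 1)).mpr hs)
    intro k
    refine le_trans (le_of_eq ?_) (t2 (k + (K + 1)))
    have h3 : (b ^ (k + (K + 1)) * δ) ^ ρ = (b ^ K * δ) ^ ρ * ((b ^ ρ) ^ k * b ^ ρ) := by
      have h4 : b ^ (k + (K + 1)) * δ = (b ^ K * δ) * (b ^ (k + 1)) := by ring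
      rw [h4, Real.mul_rpow (by positivity) (by positivity), ← pow_succ,
        ← Real.rpow_natCast b (k + 1), ← Real.rpow_natCast (b ^ ρ), ← Real.rpow_mul hb0.le,
        ← Real.rpow_mul hb0.le, mul_comm ρ]
    rw [h3, mul_pow, pow_add β k (K + 1), pow_succ β K]
    ring
  calc _ = (β ^ K / N - β ^ K / N * ((b ^ K * δ) * (b * β / (b * β - 1)))) +
        (-(β ^ K / N * ((b ^ K * δ) ^ ρ * (β * b ^ ρ / (1 - β * b ^ ρ))))) := by ring
    _ ≤ _ := add_le_add p1 p2

end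

/-! ### Separation of points -/

/-- the spike `θ ↦ max(0, 1 - (n+1) d(θ, y))` -/
noncomputable def spike (n : ℕ) (y θ : ℝ) : ℝ := max 0 (1 - (n + 1) * D (θ - y))

lemma spike_nonneg (n : ℕ) (y θ : ℝ) : 0 ≤ spike n y θ := le_max_left _ _

lemma spike_le (n : ℕ) (y θ : ℝ) : spike n y θ ≤ 1 := by
  apply max_le (by norm_num)
  have : 0 ≤ ((n : ℝ) + 1) * D (θ - y) := mul_nonneg (by positivity) (D_nonneg _)
  linarith

lemma spike_lip (n : ℕ) (y u v : ℝ) : |spike n y u - spike n y v| ≤ (n + 1) * |u - v| := by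
  unfold spike
  refine (abs_max_sub_max_le_max _ _ _ _).trans ?_
  rw [sub_zero]
  simp only [abs_zero]
  apply max_le (by positivity)
  have h1 : 1 - ((n : ℝ) + 1) * D (u - y) - (1 - (n + 1) * D (v - y)) =
    -(((n : ℝ) + 1) * (D (u - y) - D (v - y))) := by ring
  rw [h1, abs_neg, abs_mul, abs_of_pos (by positivity : (0 : ℝ) < n + 1)]
  apply mul_le_mul_of_nonneg_left _ (by positivity)
  have h2 := D_lip (u - y) (v - y)
  have h3 : u - y - (v - y) = u - v := by ring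
  rwa [h3] at h2

lemma spike_periodic (n : ℕ) (y : ℝ) : Function.Periodic (spike n y) 1 := by
  intro θ
  unfold spike
  have : θ + 1 - y = (θ - y) + ((1 : ℤ) : ℝ) := by push_cast; ring
  rw [this, D_add_int]

open Classical in
/-- the indicator of `y + ℤ` -/
noncomputable def ind (y θ : ℝ) : ℝ := if ∃ n : ℤ, θ - y = n then 1 else 0

lemma spike_tendsto (y θ : ℝ) : Tendsto (fun n : ℕ => spike n y θ) atTop (𝓝 (ind y θ)) := by
  unfold ind
  by_cases h : ∃ n : ℤ, θ - y = n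
  · rw [if_pos h]
    have h0 : D (θ - y) = 0 := D_eq_zero.mpr h
    have : (fun n : ℕ => spike n y θ) = fun _ => 1 := by
      funext n
      unfold spike
      rw [h0]
      simp
    rw [this]
    exact tendsto_const_nhds
  · rw [if_neg h]
    have h0 : 0 < D (θ - y) :=
      lt_of_le_of_ne (D_nonneg _) (fun h1 => h (D_eq_zero.mp h1.symm))
    apply tendsto_const_nhds.congr'
    obtain ⟨N, hN⟩ := exists_nat_gt (1 / D (θ - y))
    filter_upwards [eventually_ge_atTop N] with n hn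
    unfold spike
    rw [eq_comm, max_eq_left]
    have h1 : (N : ℝ) ≤ n := by exact_mod_cast hn
    have h2 : 1 < (N : ℝ) * D (θ - y) := by
      rwa [div_lt_iff₀ h0] at hN
    nlinarith

lemma ind_nonneg (y θ : ℝ) : 0 ≤ ind y θ := by
  unfold ind
  split_ifs <;> norm_num

lemma ind_le (y θ : ℝ) : ind y θ ≤ 1 := by
  unfold ind
  split_ifs <;> norm_num

/-- the limiting weights -/
lemma ind_sum_lt {β : ℝ} (hβ : 0 < β) (hβ1 : β < 1) (b : ℕ) {x y : ℝ}
    (hxy : ¬ ∃ n : ℤ, x - y = n) :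
    ∑' k : ℕ, β ^ k * ind y ((b : ℝ) ^ k * x) < ∑' k : ℕ, β ^ k * ind y ((b : ℝ) ^ k * y) := by
  have hs : ∀ z : ℝ, Summable (fun k : ℕ => β ^ k * ind y ((b : ℝ) ^ k * z)) := by
    intro z
    apply Summable.of_nonneg_of_le (fun k => mul_nonneg (pow_pos hβ k).le (ind_nonneg _ _))
      (fun k => mul_le_of_le_one_right (pow_pos hβ k).le (ind_le _ _))
      (summable_geometric_of_lt_one hβ.le hβ1)
  have hP : 0 < ∑' k : ℕ, β ^ k * ind y ((b : ℝ) ^ k * y) := by
    apply (hs y).tsum_pos (fun k => mul_nonneg (pow_pos hβ k).le (ind_nonneg _ _)) 0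
    unfold ind
    rw [if_pos ⟨0, by simp⟩]
    simp
  by_cases h : ∃ k : ℕ, ∃ n : ℤ, (b : ℝ) ^ k * x - y = n
  · classical
    have hspec := Nat.find_spec h
    have hmin := fun m (hm : m < Nat.find h) => Nat.find_min h hm
    set k0 := Nat.find h with hk0
    obtain ⟨n0, hn0⟩ := hspec
    have hk0pos : k0 ≠ 0 := by
      intro h0
      rw [h0] at hn0
      apply hxy
      exact ⟨n0, by simpa using hn0⟩
    have e1 : ∑' k : ℕ, β ^ k * ind y ((b : ℝ) ^ k * x) =
        β ^ k0 * ∑' k : ℕ, β ^ k * ind y ((b : ℝ) ^ k * y) := by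
      rw [← (hs x).sum_add_tsum_nat_add k0]
      have z1 : ∑ k ∈ range k0, β ^ k * ind y ((b : ℝ) ^ k * x) = 0 := by
        apply Finset.sum_eq_zero
        intro k hk
        unfold ind
        rw [if_neg (hmin k (Finset.mem_range.mp hk)), mul_zero]
      rw [z1, zero_add, ← tsum_mul_left]
      congr 1
      funext k
      have z2 : ind y ((b : ℝ) ^ (k + k0) * x) = ind y ((b : ℝ) ^ k * y) := by
        unfold ind
        have z3 : (b : ℝ) ^ (k + k0) * x - y =
            ((b : ℝ) ^ k * y - y) + (((b : ℤ) ^ k * n0 : ℤ) : ℝ) := by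
          push_cast
          rw [← hn0, pow_add]
          ring
        have z4 : (∃ n : ℤ, (b : ℝ) ^ (k + k0) * x - y = n) ↔
            (∃ n : ℤ, (b : ℝ) ^ k * y - y = n) := by
          rw [z3]
          constructor
          · rintro ⟨n, hn⟩
            exact ⟨n - (b : ℤ) ^ k * n0, by push_cast at hn ⊢; linarith⟩
          · rintro ⟨n, hn⟩
            exact ⟨n + (b : ℤ) ^ k * n0, by push_cast; rw [hn]⟩
        by_cases h5 : ∃ n : ℤ, (b : ℝ) ^ k * y - y = n
        · rw [if_pos h5, if_pos (z4.mpr h5)]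
        · rw [if_neg h5, if_neg (fun h6 => h5 (z4.mp h6))]
      rw [z2, pow_add]
      ring
    rw [e1]
    have : β ^ k0 < 1 := pow_lt_one₀ hβ.le hβ1 hk0pos
    nlinarith
  · have e1 : ∑' k : ℕ, β ^ k * ind y ((b : ℝ) ^ k * x) = 0 := by
      have : (fun k : ℕ => β ^ k * ind y ((b : ℝ) ^ k * x)) = fun _ => 0 := by
        funext k
        unfold ind
        rw [if_neg (fun hk => h ⟨k, hk⟩), mul_zero]
      rw [this, tsum_zero]
    rw [e1]
    exact hP

lemma separate {β : ℝ} (hβ : 0 < β) (hβ1 : β < 1) (b : ℕ) {x y : ℝ}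
    (hxy : ¬ ∃ n : ℤ, x - y = n) :
    ∃ n : ℕ, w β b (spike n y) x ≠ w β b (spike n y) y := by
  have lim : ∀ z : ℝ, Tendsto (fun n : ℕ => w β b (spike n y) z) atTop
      (𝓝 (∑' k : ℕ, β ^ k * ind y ((b : ℝ) ^ k * z))) := by
    intro z
    unfold w
    apply tendsto_tsum_of_dominated_convergence (bound := fun k : ℕ => β ^ k)
      (summable_geometric_of_lt_one hβ.le hβ1)
    · intro k
      exact (spike_tendsto y _).const_mul _
    · refine Eventually.of_forall fun n k => ?_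
      rw [Real.norm_eq_abs, abs_mul, abs_of_pos (pow_pos hβ k), abs_of_nonneg (spike_nonneg _ _ _)]
      exact mul_le_of_le_one_right (pow_pos hβ k).le (spike_le _ _ _)
  have hlt := ind_sum_lt hβ hβ1 b hxy
  obtain ⟨n, hn⟩ := ((lim x).eventually_lt (lim y) hlt).exists
  exact ⟨n, hn.ne⟩

/-- finitely many functions separate all points at distance at least `η` -/
lemma coarse {β : ℝ} (hβ : 0 < β) (hβ1 : β < 1) (b : ℕ) {η : ℝ} (hη : 0 < η) :
    ∃ t : Finset (ℕ × ℝ), ∃ ε : ℝ, 0 < ε ∧ ∀ x y : ℝ, x ∈ Set.Icc (0 : ℝ) 1 →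
      y ∈ Set.Icc (0 : ℝ) 1 → η ≤ D (x - y) →
      ∃ i ∈ t, ε ≤ |w β b (spike i.1 i.2) x - w β b (spike i.1 i.2) y| := by
  classical
  set S : Set (ℝ × ℝ) := (Set.Icc (0 : ℝ) 1 ×ˢ Set.Icc (0 : ℝ) 1) ∩ {q | η ≤ D (q.1 - q.2)}
    with hS
  have hSc : IsCompact S := by
    apply IsCompact.inter_right (isCompact_Icc.prod isCompact_Icc)
    exact isClosed_le continuous_const (D_continuous.comp (continuous_fst.sub continuous_snd))
  have hcont : ∀ i : ℕ × ℝ, Continuous (w β b (spike i.1 i.2)) := by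
    intro i
    apply w_continuous hβ hβ1 (M := 1)
    · intro z
      rw [abs_of_nonneg (spike_nonneg _ _ _)]
      exact spike_le _ _ _
    · have : LipschitzWith (⟨i.1 + 1, by positivity⟩ : NNReal) (spike i.1 i.2) :=
        LipschitzWith.of_dist_le_mul (fun u v => by
          rw [Real.dist_eq, Real.dist_eq]
          exact spike_lip _ _ _ _)
      exact this.continuous
  have hsep : ∀ q ∈ S, ∃ i : ℕ × ℝ, 0 < |w β b (spike i.1 i.2) q.1 - w β b (spike i.1 i.2) q.2| := by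
    rintro ⟨x, y⟩ hq
    have hne : ¬ ∃ n : ℤ, x - y = n := by
      intro h
      have h1 : D (x - y) = 0 := D_eq_zero.mpr h
      have h2 : η ≤ D (x - y) := hq.2
      linarith
    obtain ⟨n, hn⟩ := separate hβ hβ1 b hne
    exact ⟨(n, y), abs_pos.mpr (sub_ne_zero.mpr hn)⟩
  choose! I hI using hsep
  let U : ℝ × ℝ → Set (ℝ × ℝ) := fun q => {r |
    |w β b (spike (I q).1 (I q).2) q.1 - w β b (spike (I q).1 (I q).2) q.2| / 2 <
    |w β b (spike (I q).1 (I q).2) r.1 - w β b (spike (I q).1 (I q).2) r.2|}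
  obtain ⟨t, ht, hcov⟩ := hSc.elim_nhds_subcover U (by
    intro q hq
    apply IsOpen.mem_nhds
    · exact isOpen_lt continuous_const
        ((((hcont (I q)).comp continuous_fst).sub ((hcont (I q)).comp continuous_snd)).abs)
    · have := hI q hq
      simp only [U, Set.mem_ofPred_eq]
      linarith)
  rcases t.eq_empty_or_nonempty with he | hne
  · refine ⟨∅, 1, one_pos, fun x y hx hy hxy => ?_⟩
    have hm : (x, y) ∈ S := ⟨⟨hx, hy⟩, hxy⟩
    have := hcov hm
    rw [he] at this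
    simp at this
  · obtain ⟨q0, hq0, hmin⟩ := t.exists_min_image
      (fun q => |w β b (spike (I q).1 (I q).2) q.1 - w β b (spike (I q).1 (I q).2) q.2| / 2) hne
    refine ⟨t.image I, _, half_pos (hI q0 (ht q0 hq0)), fun x y hx hy hxy => ?_⟩
    have hm : (x, y) ∈ S := ⟨⟨hx, hy⟩, hxy⟩
    have := hcov hm
    simp only [Set.mem_iUnion] at this
    obtain ⟨q, hq, hqm⟩ := this
    refine ⟨I q, Finset.mem_image_of_mem I hq, ?_⟩
    exact (hmin q hq).trans (le_of_lt hqm)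

/-! ### Periodicity and normalisation -/

lemma w_add_int {β : ℝ} (b : ℕ) {g : ℝ → ℝ} (hg : Function.Periodic g 1) (x : ℝ) (n : ℤ) :
    w β b g (x + n) = w β b g x := by
  unfold w
  congr 1
  funext k
  congr 1
  have h1 : (b : ℝ) ^ k * (x + n) = (b : ℝ) ^ k * x + (((b : ℤ) ^ k * n : ℤ) : ℝ) * 1 := by
    push_cast; ring
  rw [h1]
  exact hg.int_mul _ _

/-- reduction to `x = z + δ`, `y = z` -/
lemma reduce {β : ℝ} (b : ℕ) (x y : ℝ) : ∃ z : ℝ, ∀ g : ℝ → ℝ, Function.Periodic g 1 →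
    |w β b g x - w β b g y| = |w β b g (z + D (x - y)) - w β b g z| := by
  rcases le_total 0 (x - y - round (x - y)) with h | h
  · refine ⟨y, fun g hg => ?_⟩
    have h1 : D (x - y) = x - y - round (x - y) := abs_of_nonneg h
    have h2 : x = (y + D (x - y)) + ((round (x - y) : ℤ) : ℝ) := by rw [h1]; ring
    conv_lhs => rw [h2, w_add_int b hg]
  · refine ⟨x, fun g hg => ?_⟩
    have h1 : D (x - y) = -(x - y - round (x - y)) := abs_of_nonpos h
    have h2 : y = (x + D (x - y)) + ((-round (x - y) : ℤ) : ℝ) := by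
      rw [h1]; push_cast; ring
    conv_lhs => rw [abs_sub_comm, h2, w_add_int b hg]

lemma rpow_scale {b : ℝ} (hb : 1 < b) {α : ℝ} (hα : 0 < α) {δ : ℝ} (hδ : 0 < δ) (K : ℕ)
    (h : 1 / δ ≤ b ^ K) : (b ^ (-α)) ^ K ≤ δ ^ α := by
  have hb0 : 0 < b := by linarith
  have h1 : (b ^ (-α)) ^ K = (b ^ K) ^ (-α) := by
    rw [← Real.rpow_natCast, ← Real.rpow_natCast, ← Real.rpow_mul hb0.le, ← Real.rpow_mul hb0.le,
      mul_comm]
  rw [h1]
  have h2 : δ ^ α = (1 / δ) ^ (-α) := by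
    rw [one_div, Real.inv_rpow hδ.le, Real.rpow_neg hδ.le, inv_inv]
  rw [h2]
  exact Real.rpow_le_rpow_of_nonpos (by positivity) h (by linarith)

lemma rpow_scale' {b : ℝ} (hb : 1 < b) {α : ℝ} (hα : 0 < α) {δ : ℝ} (hδ : 0 < δ) (K : ℕ)
    (h : b ^ K ≤ 1 / δ) : δ ^ α ≤ (b ^ (-α)) ^ K := by
  have hb0 : 0 < b := by linarith
  have h1 : (b ^ (-α)) ^ K = (b ^ K) ^ (-α) := by
    rw [← Real.rpow_natCast, ← Real.rpow_natCast, ← Real.rpow_mul hb0.le, ← Real.rpow_mul hb0.le,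
      mul_comm]
  rw [h1]
  have h2 : δ ^ α = (1 / δ) ^ (-α) := by
    rw [one_div, Real.inv_rpow hδ.le, Real.rpow_neg hδ.le, inv_inv]
  rw [h2]
  exact Real.rpow_le_rpow_of_nonpos (by positivity) h (by linarith)

/-- the parameters -/
lemma params {b : ℕ} (hb : 2 ≤ b) {α : ℝ} (hα : 0 < α) (hα1 : α < 1) :
    0 < (b : ℝ) ^ (-α) ∧ (b : ℝ) ^ (-α) < 1 ∧ 1 < (b : ℝ) ∧ 1 < (b : ℝ) * (b : ℝ) ^ (-α) ∧
      (b : ℝ) ^ (-α) * (b : ℝ) ^ (α / 2) < 1 := by
  have h1 : (1 : ℝ) < b := by exact_mod_cast (by omega : 1 < b)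
  have h0 : (0 : ℝ) < b := by linarith
  refine ⟨by positivity, Real.rpow_lt_one_of_one_lt_of_neg h1 (by linarith), h1, ?_, ?_⟩
  · have : (b : ℝ) * (b : ℝ) ^ (-α) = (b : ℝ) ^ (1 - α) := by
      rw [sub_eq_add_neg, Real.rpow_add h0, Real.rpow_one]
    rw [this]
    exact Real.one_lt_rpow h1 (by linarith)
  · rw [← Real.rpow_add h0]
    exact Real.rpow_lt_one_of_one_lt_of_neg h1 (by linarith)

lemma holder {b : ℕ} (hb : 2 ≤ b) {α : ℝ} (hα : 0 < α) (hα1 : α < 1) {g : ℝ → ℝ} {M L : ℝ}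
    (hM : ∀ x, |g x| ≤ M) (hL : ∀ x y, |g x - g y| ≤ L * |x - y|) (hL0 : 0 ≤ L)
    (hg : Function.Periodic g 1) :
    ∃ C : ℝ, 0 ≤ C ∧ ∀ x y : ℝ, |w ((b : ℝ) ^ (-α)) b g x - w ((b : ℝ) ^ (-α)) b g y| ≤
      C * D (x - y) ^ α := by
  obtain ⟨p1, p2, p3, p4, -⟩ := params hb hα hα1
  have hM0 : 0 ≤ M := (abs_nonneg _).trans (hM 0)
  set β := (b : ℝ) ^ (-α) with hβ
  have q1 : 0 < b * β - 1 := by linarith
  have q2 : 0 < 1 - β := by linarith
  refine ⟨L * b / (b * β - 1) + 2 * M / (1 - β), by positivity, fun x y => ?_⟩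
  obtain ⟨z, hz⟩ := reduce (β := β) b x y
  rw [hz g hg]
  rcases (D_nonneg (x - y)).eq_or_lt with h0 | h0
  · rw [← h0, add_zero, sub_self, abs_zero]
    positivity
  · have h1 : 1 ≤ 1 / D (x - y) := by
      rw [le_div_iff₀ h0]
      have := D_le_half (x - y)
      linarith
    obtain ⟨K, hK1, hK2⟩ := exists_nat_pow_near h1 p3
    have h2 : (b : ℝ) ^ K * D (x - y) ≤ 1 := by
      rwa [le_div_iff₀ h0] at hK1
    refine (upper p1 p2 p3 p4 hM hL hL0 z _ h0 K h2).trans ?_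
    rw [mul_comm]
    exact mul_le_mul_of_nonneg_left (rpow_scale p3 hα h0 (K + 1) hK2.le) (by positivity)

/-- the lower bound at small scales, for one of the sawtooth functions -/
lemma fine {b : ℕ} (hb : 2 ≤ b) {α : ℝ} (hα : 0 < α) (hα1 : α < 1) :
    ∃ η : ℝ, 0 < η ∧ ∃ N : ℕ, 1 ≤ N ∧ ∀ z δ : ℝ, 0 < δ → δ ≤ η → ∃ i : Fin N,
      δ ^ α / (2 * N) ≤ w ((b : ℝ) ^ (-α)) b (saw N ((i : ℕ) / (N : ℝ))) (z + δ) -
        w ((b : ℝ) ^ (-α)) b (saw N ((i : ℕ) / (N : ℝ))) z := by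
  obtain ⟨p1, p2, p3, p4, p5⟩ := params hb hα hα1
  set β := (b : ℝ) ^ (-α) with hβ
  have hb0 : (0 : ℝ) < b := by linarith
  set A := (b : ℝ) * β / (b * β - 1) with hA
  set B := β * (b : ℝ) ^ (α / 2) / (1 - β * (b : ℝ) ^ (α / 2)) with hB
  have q1 : 0 < b * β - 1 := by linarith
  have q2 : 0 < 1 - β * (b : ℝ) ^ (α / 2) := by linarith
  have hA0 : 0 < A := by positivity
  have hB0 : 0 < B := by positivity
  set η := min (1 / 2 : ℝ) (min (1 / (4 * A)) ((1 / (4 * B)) ^ (2 / α))) with hη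
  have hη0 : 0 < η := by
    apply lt_min (by norm_num)
    apply lt_min (by positivity) (by positivity)
  have hη1 : η ≤ 1 / 2 := min_le_left _ _
  have hη2 : η * A ≤ 1 / 4 := by
    have : η ≤ 1 / (4 * A) := (min_le_right _ _).trans (min_le_left _ _)
    rw [le_div_iff₀ (by positivity)] at this
    linarith
  have hη3 : η ^ (α / 2) * B ≤ 1 / 4 := by
    have h1 : η ≤ (1 / (4 * B)) ^ (2 / α) := (min_le_right _ _).trans (min_le_right _ _)
    have h2 : η ^ (α / 2) ≤ ((1 / (4 * B)) ^ (2 / α)) ^ (α / 2) :=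
      Real.rpow_le_rpow hη0.le h1 (by positivity)
    rw [← Real.rpow_mul (by positivity)] at h2
    have h3 : 2 / α * (α / 2) = 1 := by field_simp
    rw [h3, Real.rpow_one, le_div_iff₀ (by positivity)] at h2
    linarith
  obtain ⟨N, hN⟩ := exists_nat_ge (2 * (b : ℝ) / η)
  have hNpos : 1 ≤ N := by
    rcases Nat.eq_zero_or_pos N with h | h
    · rw [h] at hN
      have : 0 < 2 * (b : ℝ) / η := by positivity
      simp only [Nat.cast_zero] at hN
      linarith
    · exact h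
  have hN0 : (0 : ℝ) < N := by exact_mod_cast hNpos
  refine ⟨η, hη0, N, hNpos, fun z δ hδ hδη => ?_⟩
  have h1 : 1 ≤ η / δ := by rwa [le_div_iff₀ hδ, one_mul]
  obtain ⟨K, hK1, hK2⟩ := exists_nat_pow_near h1 p3
  set s := (b : ℝ) ^ K * δ with hs
  have hs0 : 0 < s := by positivity
  have hs1 : s ≤ η := by rwa [le_div_iff₀ hδ] at hK1
  have hs2 : η ≤ s * b := by
    rw [div_lt_iff₀ hδ, pow_succ] at hK2
    have : (b : ℝ) ^ K * b * δ = s * b := by rw [hs]; ring
    linarith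
  have hs3 : 2 / (N : ℝ) ≤ s := by
    rw [div_le_iff₀ hN0]
    rw [div_le_iff₀ hη0] at hN
    have h3 : 2 * (b : ℝ) ≤ N * (s * b) := hN.trans (mul_le_mul_of_nonneg_left hs2 hN0.le)
    have h4 : 2 * (b : ℝ) ≤ (s * N) * b := by linarith
    exact le_of_mul_le_mul_right h4 hb0
  set j : ℤ := ⌈(N : ℝ) * ((b : ℝ) ^ K * z)⌉ with hj
  have hNz : (N : ℤ) ≠ 0 := by exact_mod_cast (by omega : N ≠ 0)
  have hi0 : 0 ≤ j % N := Int.emod_nonneg _ hNz
  have hi1 : j % N < N := Int.emod_lt_of_pos _ (by exact_mod_cast hNpos)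
  obtain ⟨i, hi⟩ := Int.eq_ofNat_of_zero_le hi0
  have hiN : i < N := by rw [hi] at hi1; exact_mod_cast hi1
  have hdecomp : (j : ℝ) = N * ((j / N : ℤ) : ℝ) + i := by
    have := Int.mul_ediv_add_emod j N
    rw [hi] at this
    exact_mod_cast this.symm
  have hc : (i : ℝ) / N + ((j / N : ℤ) : ℝ) = j / N := by
    rw [hdecomp]; field_simp; ring
  have g1 : (b : ℝ) ^ K * z ≤ (i : ℝ) / N + ((j / N : ℤ) : ℝ) := by
    rw [hc, le_div_iff₀ hN0]
    have := Int.le_ceil ((N : ℝ) * ((b : ℝ) ^ K * z))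
    linarith
  have g2 : (i : ℝ) / N + ((j / N : ℤ) : ℝ) + 1 / N ≤ (b : ℝ) ^ K * (z + δ) := by
    rw [hc]
    have h3 := Int.ceil_lt_add_one ((N : ℝ) * ((b : ℝ) ^ K * z))
    have h4 : (j : ℝ) / N ≤ (b : ℝ) ^ K * z + 1 / N := by
      rw [div_le_iff₀ hN0, add_mul, div_mul_cancel₀ _ hN0.ne']
      linarith
    have h5 : (b : ℝ) ^ K * (z + δ) = (b : ℝ) ^ K * z + s := by rw [hs]; ring
    have h6 : (2 : ℝ) / N = 1 / N + 1 / N := by ring
    rw [h5]
    linarith
  have hsm := small p1 p2 p3 p4 (ρ := α / 2) (by positivity) (by linarith) p5 hNpos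
    ((i : ℝ) / N) z δ hδ K (j / N) g1 g2
  refine ⟨⟨i, hiN⟩, le_trans ?_ hsm⟩
  have h3 : (b : ℝ) ^ K * δ * A ≤ 1 / 4 := (mul_le_mul_of_nonneg_right hs1 hA0.le).trans hη2
  have h4 : ((b : ℝ) ^ K * δ) ^ (α / 2) * B ≤ 1 / 4 :=
    (mul_le_mul_of_nonneg_right (Real.rpow_le_rpow hs0.le hs1 (by positivity)) hB0.le).trans hη3
  have h5 : δ ^ α ≤ β ^ K := by
    apply rpow_scale' p3 hα hδ
    refine hK1.trans ?_
    exact div_le_div_of_nonneg_right (by linarith) hδ.le
  have h6 : δ ^ α / (2 * N) ≤ β ^ K / N * (1 / 2) := by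
    have : β ^ K / N * (1 / 2) = β ^ K / (2 * N) := by ring
    rw [this]
    exact div_le_div_of_nonneg_right h5 (by positivity)
  refine h6.trans (mul_le_mul_of_nonneg_left (by linarith) (by positivity))

/-- **Bi-Hölder Weierstrass embeddings exist for all `b ≥ 2` and all `α ∈ (0,1)`.** -/
theorem result : ∀ b : ℕ, 2 ≤ b → ∀ α : ℝ, 0 < α → α < 1 →
    ∃ m : ℕ, 1 ≤ m ∧ ∃ g : Fin m → ℝ → ℝ,
      (∀ i, (∃ L : NNReal, LipschitzWith L (g i)) ∧ Function.Periodic (g i) 1) ∧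
      ∃ C : ℝ, 1 ≤ C ∧ ∀ x y : ℝ,
        C⁻¹ * circDist x y ^ α ≤ ‖Phi α b g x - Phi α b g y‖ ∧
        ‖Phi α b g x - Phi α b g y‖ ≤ C * circDist x y ^ α := by
  classical
  intro b hb α hα hα1
  obtain ⟨p1, p2, p3, p4, p5⟩ := params hb hα hα1
  obtain ⟨η, hη0, N, hN, hfine⟩ := fine hb hα hα1
  obtain ⟨t, ε, hε, hcoarse⟩ := coarse p1 p2 b hη0
  set β := (b : ℝ) ^ (-α) with hβ
  have hN0 : (0 : ℝ) < N := by exact_mod_cast hN
  let G : Fin N ⊕ t → ℝ → ℝ :=
    Sum.elim (fun i => saw N (((i : ℕ) : ℝ) / (N : ℝ))) (fun j => spike j.1.1 j.1.2)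
  have hGper : ∀ i, Function.Periodic (G i) 1 := by
    rintro (i | j)
    · exact saw_periodic _ _
    · exact spike_periodic _ _
  have hGbd : ∀ i x, |G i x| ≤ 1 := by
    rintro (i | j) x
    · have := saw_bounds hN (((i : ℕ) : ℝ) / (N : ℝ)) x
      change |saw N _ x| ≤ 1
      rw [abs_of_nonneg this.1]
      exact this.2.trans (by rw [div_le_one hN0]; exact_mod_cast hN)
    · change |spike _ _ x| ≤ 1
      rw [abs_of_nonneg (spike_nonneg _ _ _)]
      exact spike_le _ _ _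
  have hGlip : ∀ i, ∃ L : ℝ, 0 ≤ L ∧ ∀ x y, |G i x - G i y| ≤ L * |x - y| := by
    rintro (i | j)
    · exact ⟨1, zero_le_one, fun x y => saw_lip hN _ x y⟩
    · exact ⟨(j.1.1 : ℝ) + 1, by positivity, fun x y => spike_lip _ _ x y⟩
  choose L hL0 hL using hGlip
  have hhol : ∀ i, ∃ C : ℝ, 0 ≤ C ∧ ∀ x y : ℝ, |w β b (G i) x - w β b (G i) y| ≤
      C * D (x - y) ^ α := fun i => holder hb hα hα1 (hGbd i) (hL i) (hL0 i) (hGper i)
  choose Ch hCh0 hCh using hhol
  let e := (Fintype.equivFin (Fin N ⊕ t)).symm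
  set m := Fintype.card (Fin N ⊕ t) with hm
  have hm1 : 1 ≤ m := by
    rw [hm, Fintype.card_sum, Fintype.card_fin]
    omega
  have hm1' : (1 : ℝ) ≤ m := by exact_mod_cast hm1
  set C0 := ∑ i, Ch i with hC0
  have hC00 : 0 ≤ C0 := Finset.sum_nonneg fun i _ => hCh0 i
  set C := max 1 (max (m * C0) (max (2 * N) ε⁻¹)) with hC
  have hC1 : 1 ≤ C := le_max_left _ _
  have hC2 : m * C0 ≤ C := (le_max_left _ _).trans (le_max_right _ _)
  have hC3 : (2 : ℝ) * N ≤ C :=
    ((le_max_left _ _).trans (le_max_right _ _)).trans (le_max_right _ _)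
  have hC4 : ε⁻¹ ≤ C := ((le_max_right _ _).trans (le_max_right _ _)).trans (le_max_right _ _)
  have hCpos : 0 < C := by linarith
  refine ⟨m, hm1, fun i => G (e i), fun i => ⟨⟨⟨L (e i), hL0 _⟩, ?_⟩, hGper _⟩, C, hC1,
    fun x y => ?_⟩
  · exact LipschitzWith.of_dist_le_mul (fun u v => by
      rw [Real.dist_eq, Real.dist_eq]
      exact hL _ _ _)
  rw [circDist_eq]
  set d := D (x - y) with hd
  have hd0 : 0 ≤ d := D_nonneg _
  have hd1 : d ≤ 1 := (D_le_half _).trans (by norm_num)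
  have hdα0 : 0 ≤ d ^ α := Real.rpow_nonneg hd0 _
  have hcomp : ∀ i, (Phi α b (fun i => G (e i)) x - Phi α b (fun i => G (e i)) y).ofLp i =
      w β b (G (e i)) x - w β b (G (e i)) y := by
    intro i
    simp only [Phi, PiLp.sub_apply]
    rw [W_eq hb, W_eq hb]
  constructor
  · -- lower bound
    have key : ∃ i : Fin m, C⁻¹ * d ^ α ≤ |w β b (G (e i)) x - w β b (G (e i)) y| := by
      rcases hd0.eq_or_lt with h0 | h0
      · refine ⟨⟨0, hm1⟩, ?_⟩
        rw [← h0, Real.zero_rpow hα.ne', mul_zero]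
        exact abs_nonneg _
      · rcases le_total d η with h1 | h1
        · obtain ⟨z, hz⟩ := reduce (β := β) b x y
          obtain ⟨i, hi⟩ := hfine z d h0 h1
          refine ⟨e.symm (Sum.inl i), ?_⟩
          rw [Equiv.apply_symm_apply, hz _ (hGper _)]
          refine le_trans ?_ (le_abs_self _)
          refine le_trans ?_ hi
          rw [div_eq_inv_mul]
          apply mul_le_mul_of_nonneg_right _ hdα0
          exact inv_anti₀ (by positivity) hC3
        · have hx : Int.fract x ∈ Set.Icc (0 : ℝ) 1 :=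
            ⟨Int.fract_nonneg _, (Int.fract_lt_one _).le⟩
          have hy : Int.fract y ∈ Set.Icc (0 : ℝ) 1 :=
            ⟨Int.fract_nonneg _, (Int.fract_lt_one _).le⟩
          have hdd : D (Int.fract x - Int.fract y) = d := by
            have : x - y = (Int.fract x - Int.fract y) + ((⌊x⌋ - ⌊y⌋ : ℤ) : ℝ) := by
              unfold Int.fract; push_cast; ring
            rw [hd, this, D_add_int]
          obtain ⟨j, hj, hjε⟩ := hcoarse _ _ hx hy (by rw [hdd]; exact h1)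
          refine ⟨e.symm (Sum.inr ⟨j, hj⟩), ?_⟩
          rw [Equiv.apply_symm_apply]
          have ex : ∀ z : ℝ, w β b (G (Sum.inr ⟨j, hj⟩)) z =
              w β b (spike j.1 j.2) (Int.fract z) := by
            intro z
            have : z = Int.fract z + ((⌊z⌋ : ℤ) : ℝ) := by unfold Int.fract; ring
            conv_lhs => rw [this, w_add_int b (hGper _)]
            rfl
          rw [ex x, ex y]
          refine le_trans ?_ hjε
          have h2 : d ^ α ≤ 1 := Real.rpow_le_one hd0 hd1 hα.le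
          have h3 : C⁻¹ ≤ ε := by
            rw [inv_le_comm₀ hCpos hε]; exact hC4
          calc C⁻¹ * d ^ α ≤ C⁻¹ * 1 := mul_le_mul_of_nonneg_left h2 (by positivity)
            _ ≤ ε := by rw [mul_one]; exact h3
    obtain ⟨i, hi⟩ := key
    refine hi.trans ?_
    rw [← hcomp i, ← Real.norm_eq_abs]
    exact PiLp.norm_apply_le _ i
  · -- upper bound
    have hi : ∀ i : Fin m, |w β b (G (e i)) x - w β b (G (e i)) y| ≤ C0 * d ^ α := by
      intro i
      refine (hCh (e i) x y).trans (mul_le_mul_of_nonneg_right ?_ hdα0)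
      exact Finset.single_le_sum (fun j _ => hCh0 j) (Finset.mem_univ _)
    rw [EuclideanSpace.norm_eq]
    refine le_trans ?_ (mul_le_mul_of_nonneg_right hC2 hdα0)
    rw [Real.sqrt_le_left (by positivity)]
    calc ∑ i, ‖(Phi α b (fun i => G (e i)) x - Phi α b (fun i => G (e i)) y).ofLp i‖ ^ 2 ≤
        ∑ _i : Fin m, (C0 * d ^ α) ^ 2 := by
          apply Finset.sum_le_sum
          intro i _
          rw [hcomp i, Real.norm_eq_abs]
          exact pow_le_pow_left₀ (abs_nonneg _) (hi i) 2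
      _ = m * (C0 * d ^ α) ^ 2 := by
          rw [Finset.sum_const, Finset.card_univ, Fintype.card_fin, nsmul_eq_mul]
      _ ≤ (m * C0 * d ^ α) ^ 2 := by
          have h2 : 0 ≤ (C0 * d ^ α) ^ 2 := by positivity
          have h3 : (m : ℝ) ≤ (m : ℝ) ^ 2 := by nlinarith
          have h4 : (m * C0 * d ^ α) ^ 2 = (m : ℝ) ^ 2 * (C0 * d ^ α) ^ 2 := by ring
          rw [h4]
          exact mul_le_mul_of_nonneg_right h3 h2

end Pool.Agent.Results.MP_0a5dd0_an.BiHolder
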